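import Pool.Agent.helper79.SL.Main

set_option autoImplicit false

/-!
# The product of the heights of independent radicals, with one exceptional direction
-/

namespace Pool.Agent.helper69.CM

open NumberField Height Finset Module IntermediateField
open Pool.Agent.helper79.SL

/-- separated real numbers in a short interval -/
theorem sep_card {ι : Type*} (S : Finset ι) (f : ι → ℝ) {δ : ℝ} (hδ : 0 < δ) {N : ℕ}
    (h1 : ∀ u ∈ S, ∀ v ∈ S, u ≠ v → δ ≤ |f u - f v|)
    (h2 : ∀ u ∈ S, ∀ v ∈ S, f u - f v < N * δ) : S.card ≤ N := by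
  classical
  rcases S.eq_empty_or_nonempty with rfl | hne
  · simp
  obtain ⟨u0, hu0, hmin⟩ := S.exists_min_image f hne
  have hcard : S.card ≤ (Finset.range N).card := by
    apply Finset.card_le_card_of_injOn (fun u => ⌊(f u - f u0) / δ⌋₊)
    · intro u hu
      have hu' : u ∈ S := hu
      have h3 : (f u - f u0) / δ < N := by
        rw [div_lt_iff₀ hδ]
        exact h2 u hu' u0 hu0
      have h4 : 0 ≤ (f u - f u0) / δ := div_nonneg (sub_nonneg.mpr (hmin u hu')) hδ.le
      have h5 : ⌊(f u - f u0) / δ⌋₊ < N := (Nat.floor_lt h4).mpr h3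
      exact Finset.mem_coe.mpr (Finset.mem_range.mpr h5)
    · intro u hu v hv huv
      have hu' : u ∈ S := hu
      have hv' : v ∈ S := hv
      by_contra hne'
      have h3 := h1 u hu' v hv' hne'
      have hfu : 0 ≤ (f u - f u0) / δ := div_nonneg (sub_nonneg.mpr (hmin u hu')) hδ.le
      have hfv : 0 ≤ (f v - f u0) / δ := div_nonneg (sub_nonneg.mpr (hmin v hv')) hδ.le
      have a1 := Nat.floor_le hfu
      have a2 := Nat.lt_floor_add_one ((f u - f u0) / δ)
      have b1 := Nat.floor_le hfv
      have b2 := Nat.lt_floor_add_one ((f v - f u0) / δ)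
      have huv' : (⌊(f u - f u0) / δ⌋₊ : ℝ) = (⌊(f v - f u0) / δ⌋₊ : ℝ) := by
        have : ⌊(f u - f u0) / δ⌋₊ = ⌊(f v - f u0) / δ⌋₊ := huv
        rw [this]
      have h4 : |(f u - f u0) / δ - (f v - f u0) / δ| < 1 := by
        rw [abs_lt]
        constructor <;> linarith
      have h5 : (f u - f u0) / δ - (f v - f u0) / δ = (f u - f v) / δ := by ring
      rw [h5, abs_div, abs_of_pos hδ, div_lt_one hδ] at h4
      linarith
  rwa [Finset.card_range] at hcard

variable {F : IntermediateField ℚ ℂ}

/-- `F` contains all roots of unity, every `α i` has a positive power in `F`; the height of the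
nontrivial monomials in `F` is at least `b`, except for a set of exponents of rank at most one,
where it is at least `δ`. -/
theorem prod_ht_ge2 (hμ : ∀ (k : ℕ) (ζ : ℂ), 0 < k → ζ ^ k = 1 → ζ ∈ F) {n : ℕ} (hn : 0 < n)
    (α : Fin n → ℂ) (h0 : ∀ i, α i ≠ 0) (halg : ∀ i, IsAlgebraic ℚ (α i))
    (hrad : ∀ i, ∃ k : ℕ, 0 < k ∧ α i ^ k ∈ F) {b δ : ℝ} (hb : 0 < b) {d₀ D : ℕ} (hd₀ : 0 < d₀)
    (hbδ : b ≤ d₀ * δ) (hD : finrank F (adjoin F (Set.range α)) * d₀ ≤ D)
    (U : (Fin n → ℤ) → Prop)
    (hU : ∀ w w' : Fin n → ℤ, U w → U w' → ∃ p q : ℤ, (p ≠ 0 ∨ q ≠ 0) ∧ p • w = q • w')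
    (hG : ∀ m : Fin n → ℤ, m ≠ 0 → ∏ i, α i ^ m i ∈ F →
      b ≤ ht (∏ i, α i ^ m i) ∨ (U m ∧ δ ≤ ht (∏ i, α i ^ m i))) :
    (b / n) ^ n / D ≤ ∏ i, ht (α i) := by
  classical
  haveI : FiniteDimensional F (adjoin F (Set.range α)) := by
    apply finiteDimensional_adjoin
    rintro _ ⟨i, rfl⟩
    exact (halg i).isIntegral.tower_top
  have hdN : 0 < finrank F (adjoin F (Set.range α)) := finrank_pos
  have hD0 : 0 < D := lt_of_lt_of_le (Nat.mul_pos hdN hd₀) hD
  have hd : (0 : ℝ) < D := by exact_mod_cast hD0
  have hn' : (0 : ℝ) < n := by exact_mod_cast hn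
  have hd₀' : (0 : ℝ) < d₀ := by exact_mod_cast hd₀
  have hδ : 0 < δ := by
    by_contra hcon
    have : (d₀ : ℝ) * δ ≤ 0 := mul_nonpos_of_nonneg_of_nonpos hd₀'.le (not_lt.mp hcon)
    linarith
  have hpos : ∀ i, 0 < ht (α i) := by
    intro i
    obtain ⟨k, hk, h⟩ := hrad i
    have h1 : ∏ j, α j ^ (Pi.single i (k : ℤ) : Fin n → ℤ) j = α i ^ k := by
      rw [Finset.prod_eq_single i]
      · simp
      · intro j _ hj
        simp [hj]
      · simp
    have h2 := hG (Pi.single i (k : ℤ)) (by
      intro hh
      have := congrFun hh i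
      simp at this
      omega) (by rw [h1]; exact h)
    rw [h1, ht_pow (halg i)] at h2
    have h3 : 0 < (k : ℝ) * ht (α i) := by
      rcases h2 with h2 | h2
      · exact hb.trans_le h2
      · exact hδ.trans_le h2.2
    exact (pos_iff_pos_of_mul_pos h3).1 (by exact_mod_cast hk)
  rw [div_le_iff₀ hd]
  by_contra hcon
  push Not at hcon
  set x : Fin n → ℝ := fun i => b / (n * ht (α i)) with hx
  have hxpos : ∀ i, 0 < x i := fun i => by
    have := hpos i
    rw [hx]
    positivity
  set m : Fin n → ℕ := fun i => ⌈x i⌉₊ - 1 with hm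
  have hm1 : ∀ i, x i ≤ ((m i + 1 : ℕ) : ℝ) := by
    intro i
    have h1 : 0 < ⌈x i⌉₊ := Nat.ceil_pos.2 (hxpos i)
    have h2 : m i + 1 = ⌈x i⌉₊ := by
      simp only [hm]
      omega
    rw [h2]
    exact Nat.le_ceil _
  have hm2 : ∀ i, (m i : ℝ) < x i := by
    intro i
    have h1 : 0 < ⌈x i⌉₊ := Nat.ceil_pos.2 (hxpos i)
    have h2 : m i < ⌈x i⌉₊ := by
      simp only [hm]
      omega
    exact Nat.lt_ceil.1 h2
  set B : Finset (Fin n → ℕ) := Fintype.piFinset fun i => Finset.range (m i + 1) with hB
  have hcard : D < #B := by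
    have h1 : (#B : ℝ) = ∏ i, ((m i + 1 : ℕ) : ℝ) := by
      rw [hB, Fintype.card_piFinset]
      push_cast
      simp
    have h2 : ∏ i, x i ≤ (#B : ℝ) := by
      rw [h1]
      exact Finset.prod_le_prod (fun i _ => (hxpos i).le) fun i _ => hm1 i
    have h3 : (∏ i, x i) * ∏ i, ht (α i) = (b / n) ^ n := by
      rw [← Finset.prod_mul_distrib]
      have : ∀ i, x i * ht (α i) = b / n := by
        intro i
        have := (hpos i).ne'
        simp only [hx]
        field_simp
      rw [Finset.prod_congr rfl fun i _ => this i, Finset.prod_const, Finset.card_univ,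
        Fintype.card_fin]
    have h4 : 0 < ∏ i, ht (α i) := Finset.prod_pos fun i _ => hpos i
    have h5 : (D : ℝ) < ∏ i, x i := by
      rw [← h3, mul_comm] at hcon
      exact lt_of_mul_lt_mul_right hcon h4.le
    exact_mod_cast h5.trans_le h2
  -- the monomials
  let g : B → ℂ := fun u => ∏ i, α i ^ (u : Fin n → ℕ) i
  have hg0 : ∀ u, g u ≠ 0 := fun u => Finset.prod_ne_zero_iff.2 fun i _ => pow_ne_zero _ (h0 i)
  have hgrad : ∀ u, ∃ k : ℕ, 0 < k ∧ g u ^ k ∈ F := fun u => by
    choose k hk hkF using hrad
    refine ⟨∏ i, k i, Finset.prod_pos fun i _ => hk i, ?_⟩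
    rw [← Finset.prod_pow]
    refine prod_mem fun i _ => ?_
    rw [← Finset.mul_prod_erase Finset.univ k (Finset.mem_univ i), ← pow_mul, mul_comm,
      mul_assoc, pow_mul]
    exact pow_mem (hkF i) _
  -- differences of exponents
  let dw : B → B → Fin n → ℤ := fun u v i => ((u : Fin n → ℕ) i : ℤ) - ((v : Fin n → ℕ) i : ℤ)
  have hdw : ∀ u v, ∏ i, α i ^ dw u v i = g u / g v := by
    intro u v
    show ∏ i, α i ^ dw u v i = (∏ i, α i ^ (u : Fin n → ℕ) i) / (∏ i, α i ^ (v : Fin n → ℕ) i)
    rw [← Finset.prod_div_distrib]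
    refine Finset.prod_congr rfl fun i _ => ?_
    show α i ^ (((u : Fin n → ℕ) i : ℤ) - ((v : Fin n → ℕ) i : ℤ)) = _
    rw [zpow_sub₀ (h0 i), zpow_natCast, zpow_natCast]
  have hdw0 : ∀ u v, u ≠ v → dw u v ≠ 0 := by
    intro u v huv h
    apply huv
    apply Subtype.ext
    funext i
    have h1 : ((u : Fin n → ℕ) i : ℤ) - ((v : Fin n → ℕ) i : ℤ) = 0 := congrFun h i
    omega
  have hsmall : ∀ u v, ht (g u / g v) < b := by
    intro u v
    rw [← hdw u v]
    have h2 : ht (∏ i, α i ^ dw u v i) ≤ ∑ i, ht (α i ^ dw u v i) :=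
      ht_prod_le _ fun i _ => isAlgebraic_zpow (halg i) _
    have h3 : ∀ i ∈ (Finset.univ : Finset (Fin n)), ht (α i ^ dw u v i) < b / n := by
      intro i _
      rw [ht_zpow (halg i)]
      have hu := Fintype.mem_piFinset.1 u.2 i
      have hv := Fintype.mem_piFinset.1 v.2 i
      rw [Finset.mem_range] at hu hv
      have h4 : |dw u v i| ≤ (m i : ℤ) := by
        show |((u : Fin n → ℕ) i : ℤ) - ((v : Fin n → ℕ) i : ℤ)| ≤ (m i : ℤ)
        rw [abs_le]
        constructor <;> omega
      have h5 : |(dw u v i : ℝ)| ≤ m i := by exact_mod_cast h4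
      calc |(dw u v i : ℝ)| * ht (α i) ≤ m i * ht (α i) :=
            mul_le_mul_of_nonneg_right h5 (hpos i).le
        _ < x i * ht (α i) := mul_lt_mul_of_pos_right (hm2 i) (hpos i)
        _ = b / n := by
          have := (hpos i).ne'
          simp only [hx]
          field_simp
    have h4 : ∑ i, ht (α i ^ dw u v i) < ∑ _i : Fin n, b / n :=
      Finset.sum_lt_sum_of_nonempty ⟨⟨0, hn⟩, Finset.mem_univ _⟩ h3
    rw [Finset.sum_const, Finset.card_univ, Fintype.card_fin, nsmul_eq_mul,
      mul_div_cancel₀ _ hn'.ne'] at h4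
    linarith
  -- the classes
  let s : Setoid B :=
    { r := fun u v => g u / g v ∈ F
      iseqv := by
        refine ⟨fun u => ?_, fun {u v} h => ?_, fun {u v w} h h' => ?_⟩
        · show g u / g u ∈ F
          rw [div_self (hg0 u)]
          exact one_mem _
        · show g v / g u ∈ F
          have := inv_mem h
          rwa [inv_div] at this
        · show g u / g w ∈ F
          have := mul_mem h h'
          rwa [div_mul_div_cancel₀ (hg0 v)] at this }
  let rep : B → B := fun u => (Quotient.mk s u).out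
  have hrep : ∀ u v, rep u = rep v → g u / g v ∈ F := by
    intro u v h
    have h1 : Quotient.mk s (rep u) = Quotient.mk s u := Quotient.out_eq _
    have h2 : Quotient.mk s (rep v) = Quotient.mk s v := Quotient.out_eq _
    have h3 : Quotient.mk s u = Quotient.mk s v := by rw [← h1, ← h2, h]
    exact Quotient.exact h3
  have hrep' : ∀ u v, g (rep u) / g (rep v) ∈ F → rep u = rep v := by
    intro u v h
    have h1 : Quotient.mk s (rep u) = Quotient.mk s u := Quotient.out_eq _
    have h2 : Quotient.mk s (rep v) = Quotient.mk s v := Quotient.out_eq _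
    have h3 : Quotient.mk s (rep u) = Quotient.mk s (rep v) := Quotient.sound h
    have h4 : Quotient.mk s u = Quotient.mk s v := by rw [← h1, ← h2, h3]
    show (Quotient.mk s u).out = (Quotient.mk s v).out
    rw [h4]
  have hT : (Finset.univ.image rep).card ≤ finrank F (adjoin F (Set.range α)) := by
    set T : Finset B := Finset.univ.image rep with hTdef
    have hli := kummer_indep hμ (fun u : T => g u) (fun u => hg0 _) (fun u => hgrad _)
      (fun u v huv hF => by
        obtain ⟨u', _, hu'⟩ := Finset.mem_image.mp u.2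
        obtain ⟨v', _, hv'⟩ := Finset.mem_image.mp v.2
        apply huv
        apply Subtype.ext
        rw [← hu', ← hv']
        apply hrep'
        rw [hu', hv']
        exact hF)
    let a : T → adjoin F (Set.range α) := fun u =>
      ⟨g u, prod_mem fun i _ => pow_mem (subset_adjoin F _ (Set.mem_range_self i)) _⟩
    have hli' : LinearIndependent F a :=
      LinearIndependent.of_comp (adjoin F (Set.range α)).val.toLinearMap hli
    have := hli'.fintype_card_le_finrank
    rwa [Fintype.card_coe] at this
  have hfib : ∀ c ∈ Finset.univ.image rep, (Finset.univ.filter (fun u : B => rep u = c)).card ≤ d₀ := by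
    intro c _
    set S : Finset B := Finset.univ.filter (fun u : B => rep u = c) with hS
    have hSF : ∀ u ∈ S, ∀ v ∈ S, g u / g v ∈ F := by
      intro u hu v hv
      exact hrep u v ((Finset.mem_filter.mp hu).2.trans (Finset.mem_filter.mp hv).2.symm)
    have hSU : ∀ u ∈ S, ∀ v ∈ S, u ≠ v → U (dw u v) ∧ δ ≤ ht (g u / g v) := by
      intro u hu v hv huv
      have h1 := hG (dw u v) (hdw0 u v huv) (by rw [hdw]; exact hSF u hu v hv)
      rw [hdw] at h1
      rcases h1 with h1 | h1
      · exact absurd (hsmall u v) (not_lt.mpr h1)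
      · exact h1
    rcases Nat.lt_or_ge 1 S.card with h1 | h1
    · obtain ⟨u0, hu0, v0, hv0, huv0⟩ := Finset.one_lt_card.mp h1
      set e : Fin n → ℤ := dw u0 v0 with he
      have he0 : e ≠ 0 := hdw0 u0 v0 huv0
      obtain ⟨i, hi⟩ : ∃ i, e i ≠ 0 := by
        by_contra hall
        push Not at hall
        exact he0 (funext hall)
      have hUe := (hSU u0 hu0 v0 hv0 huv0).1
      have hei : (0 : ℝ) < |(e i : ℝ)| := abs_pos.mpr (by exact_mod_cast hi)
      set κ : ℝ := ht (g u0 / g v0) / |(e i : ℝ)| with hκ
      have hhom : ∀ u ∈ S, ∀ v ∈ S, ht (g u / g v) = |κ * ((u : Fin n → ℕ) i : ℝ) - κ * ((v : Fin n → ℕ) i : ℝ)| := by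
        intro u hu v hv
        have hκ0 : 0 ≤ κ := div_nonneg (ht_nonneg _) hei.le
        have hgoal : ht (g u / g v) = κ * |(dw u v i : ℝ)| := by
          by_cases huv : u = v
          · subst huv
            have h2 : g u / g u = 1 := div_self (hg0 u)
            have h3 : dw u u i = 0 := sub_self _
            rw [h2, ht_one, h3]
            simp
          · obtain ⟨p, q, hpq, hlin⟩ := hU _ _ (hSU u hu v hv huv).1 hUe
            have hw0 := hdw0 u v huv
            have hp : p ≠ 0 := by
              intro hp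
              rcases hpq with h | h
              · exact h hp
              · rw [hp, zero_smul] at hlin
                have h2 := congrFun hlin i
                simp only [Pi.zero_apply, Pi.smul_apply, smul_eq_mul] at h2
                rcases mul_eq_zero.mp h2.symm with h3 | h3
                · exact h h3
                · exact hi h3
            have hrel : ∀ j, e i * dw u v j = dw u v i * e j := by
              intro j
              have h2 := congrFun hlin i
              have h3 := congrFun hlin j
              simp only [Pi.smul_apply, smul_eq_mul] at h2 h3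
              have h4 : p * (e i * dw u v j) = p * (dw u v i * e j) := by
                calc p * (e i * dw u v j) = e i * (p * dw u v j) := by ring
                  _ = e i * (q * e j) := by rw [h3]
                  _ = (q * e i) * e j := by ring
                  _ = (p * dw u v i) * e j := by rw [h2]
                  _ = p * (dw u v i * e j) := by ring
              exact mul_left_cancel₀ hp h4
            have h5 : (g u / g v) ^ (e i) = (g u0 / g v0) ^ (dw u v i) := by
              rw [← hdw u v, ← hdw u0 v0, ← Finset.prod_zpow, ← Finset.prod_zpow]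
              refine Finset.prod_congr rfl fun j _ => ?_
              rw [← zpow_mul, ← zpow_mul, mul_comm (dw u v j), hrel j, mul_comm]
            have hal : ∀ u v : B, IsAlgebraic ℚ (g u / g v) := by
              intro u v
              rw [← hdw u v]
              exact isAlgebraic_prod _ fun i _ => isAlgebraic_zpow (halg i) _
            have h6 := congrArg ht h5
            rw [ht_zpow (hal u v), ht_zpow (hal u0 v0)] at h6
            rw [hκ]
            field_simp
            linarith
        rw [hgoal]
        have h7 : κ * ((u : Fin n → ℕ) i : ℝ) - κ * ((v : Fin n → ℕ) i : ℝ) = κ * (dw u v i : ℝ) := by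
          have h8 : (dw u v i : ℝ) = ((u : Fin n → ℕ) i : ℝ) - ((v : Fin n → ℕ) i : ℝ) := by
            show (((((u : Fin n → ℕ) i : ℤ) - ((v : Fin n → ℕ) i : ℤ)) : ℤ) : ℝ) = _
            push_cast
            ring
          rw [h8]; ring
        rw [h7, abs_mul, abs_of_nonneg hκ0]
      apply sep_card S (fun u => κ * ((u : Fin n → ℕ) i : ℝ)) hδ
      · intro u hu v hv huv
        rw [← hhom u hu v hv]
        exact (hSU u hu v hv huv).2
      · intro u hu v hv
        have h2 : κ * ((u : Fin n → ℕ) i : ℝ) - κ * ((v : Fin n → ℕ) i : ℝ) ≤ ht (g u / g v) := by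
          rw [hhom u hu v hv]
          exact le_abs_self _
        have h3 := hsmall u v
        linarith
    · omega
  have hfin := Finset.card_le_mul_card_image (f := rep) (Finset.univ : Finset B) d₀ hfib
  rw [Finset.card_univ, Fintype.card_coe] at hfin
  have h9 : d₀ * (Finset.univ.image rep).card ≤ D := by
    calc d₀ * (Finset.univ.image rep).card ≤ d₀ * finrank F (adjoin F (Set.range α)) :=
          Nat.mul_le_mul_left _ hT
      _ = finrank F (adjoin F (Set.range α)) * d₀ := mul_comm _ _
      _ ≤ D := hD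
  omega

end Pool.Agent.helper69.CM
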