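import Pool.Agent.helper69.CM.Low

set_option autoImplicit false

/-!
# Lower bounds of the height: numbers with many positive conjugates
-/

namespace Pool.Agent.helper69.CM

open NumberField Height Finset Module IntermediateField
open Pool.Agent.helper79.SL

theorem pow_ineq {t : ℝ} (h0 : 0 ≤ t) (h1 : t ≤ 1) (e : ℕ) :
    ((e : ℝ) + 1) * t ^ e * (1 - t) ≤ 1 - t ^ (e + 1) := by
  induction e with
  | zero => simp
  | succ e ih =>
    have h2 : t * (((e : ℝ) + 1) * t ^ e * (1 - t)) ≤ t * (1 - t ^ (e + 1)) :=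
      mul_le_mul_of_nonneg_left ih h0
    have h3 : t ^ (e + 1) * (1 - t) ≤ 1 * (1 - t) :=
      mul_le_mul_of_nonneg_right (pow_le_one₀ h0 h1) (by linarith)
    have e1 : t ^ (e + 1 + 1) = t * t ^ (e + 1) := by ring
    have e2 : t ^ (e + 1) = t * t ^ e := by ring
    push_cast
    rw [e1]
    rw [e2] at h2 h3 ⊢
    nlinarith

theorem real_ineq2 {t : ℝ} (ht : 0 < t) (e : ℕ) :
    ((e : ℝ) + 1) * (t ^ e * |t - 1|) ≤ max t 1 ^ (2 * e + 1) := by
  rcases le_total t 1 with h | h
  · rw [max_eq_right h, one_pow, abs_of_nonpos (by linarith)]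
    have h1 := pow_ineq ht.le h e
    have h2 : 0 ≤ t ^ (e + 1) := by positivity
    nlinarith
  · rw [max_eq_left h, abs_of_nonneg (by linarith)]
    have h1 := one_add_mul_le_pow (a := t - 1) (by linarith) (e + 1)
    rw [add_sub_cancel] at h1
    push_cast at h1
    have h2 : ((e : ℝ) + 1) * (t - 1) ≤ t ^ (e + 1) := by linarith
    have h3 : t ^ (2 * e + 1) = t ^ e * t ^ (e + 1) := by ring
    rw [h3]
    calc ((e : ℝ) + 1) * (t ^ e * (t - 1)) = t ^ e * (((e : ℝ) + 1) * (t - 1)) := by ring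
      _ ≤ t ^ e * t ^ (e + 1) := mul_le_mul_of_nonneg_left h2 (by positivity)

variable {K : Type*} [Field K] [NumberField K]

/-- numbers with many positive conjugates -/
theorem tpm_bound (y : K) (h0 : y ≠ 0) (h1 : y ≠ 1) (S : Finset (K →+* ℂ))
    (hpos : ∀ φ ∈ S, ∃ t : ℝ, 0 < t ∧ φ y = t) {m e : ℕ} (he : e + 1 = 2 ^ m)
    (hc : finrank ℚ K ≤ m * S.card) :
    finrank ℚ K * Real.log 2 ≤ m * (2 * e + 1) * logHeight₁ y := by
  classical
  obtain ⟨a, b, hb, rfl⟩ := IsFractionRing.div_surjective (A := 𝓞 K) y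
  have hb0 : b ≠ 0 := nonZeroDivisors.ne_zero hb
  set I := Ideal.span {a, b} with hI
  have haI : a ∈ I := Ideal.subset_span (by simp)
  have hbI : b ∈ I := Ideal.subset_span (by simp)
  set U := a ^ e * (a - b) * b ^ e with hU
  have hbL : (b : K) ≠ 0 := by
    intro h
    exact hb0 (RingOfIntegers.ext (by simpa using h))
  have ha0 : a ≠ 0 := by
    intro h
    apply h0
    rw [h]
    simp
  have hab : a - b ≠ 0 := by
    intro h
    apply h1
    rw [sub_eq_zero.mp h]
    exact div_self hbL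
  have hU0 : U ≠ 0 := mul_ne_zero (mul_ne_zero (pow_ne_zero _ ha0) hab) (pow_ne_zero _ hb0)
  have hmem : U ∈ I ^ (2 * e + 1) := by
    have e1 : I ^ (2 * e + 1) = I ^ e * I * I ^ e := by ring
    rw [e1]
    exact Ideal.mul_mem_mul (Ideal.mul_mem_mul (Ideal.pow_mem_pow haI e) (I.sub_mem haI hbI))
      (Ideal.pow_mem_pow hbI e)
  have hI0 : Ideal.absNorm I ≠ 0 := by
    rw [Ne, Ideal.absNorm_eq_zero_iff]
    intro h
    apply hb0
    rw [h] at hbI
    simpa using hbI
  have hdvd : Ideal.absNorm (I ^ (2 * e + 1)) ∣ Ideal.absNorm (Ideal.span {U}) :=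
    Ideal.absNorm_dvd_absNorm_of_le ((Ideal.span_singleton_le_iff_mem _).2 hmem)
  rw [map_pow] at hdvd
  have hUn : Ideal.absNorm (Ideal.span {U}) ≠ 0 := by
    rw [Ne, Ideal.absNorm_eq_zero_iff, Ideal.span_singleton_eq_bot]
    exact hU0
  have hle := Nat.le_of_dvd (Nat.pos_of_ne_zero hUn) hdvd
  set M : ℝ := ∏ φ : K →+* ℂ, max ‖φ a‖ ‖φ b‖ with hM
  have hcard : (Finset.univ : Finset (K →+* ℂ)).card = finrank ℚ K := by
    rw [Finset.card_univ, Embeddings.card]
  have hub : ((e : ℝ) + 1) ^ S.card * (Ideal.absNorm (Ideal.span {U}) : ℝ) ≤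
      2 ^ (finrank ℚ K - S.card) * M ^ (2 * e + 1) := by
    rw [abs_norm_eq]
    have hL : ((e : ℝ) + 1) ^ S.card * ∏ φ : K →+* ℂ, ‖φ ((U : 𝓞 K) : K)‖ =
        ∏ φ : K →+* ℂ, (if φ ∈ S then ((e : ℝ) + 1) else 1) * ‖φ ((U : 𝓞 K) : K)‖ := by
      rw [Finset.prod_mul_distrib, Finset.prod_ite, Finset.prod_const, Finset.prod_const_one,
        mul_one, Finset.filter_mem_eq_inter, Finset.univ_inter]
    have hR : (2 : ℝ) ^ (finrank ℚ K - S.card) * M ^ (2 * e + 1) =
        ∏ φ : K →+* ℂ, (if φ ∈ S then (1 : ℝ) else 2) * (max ‖φ a‖ ‖φ b‖) ^ (2 * e + 1) := by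
      rw [Finset.prod_mul_distrib, Finset.prod_ite, Finset.prod_const_one, Finset.prod_const,
        one_mul, Finset.prod_pow, hM]
      congr 2
      have : Finset.univ.filter (fun φ : K →+* ℂ => φ ∉ S) = Finset.univ \ S := by
        ext φ
        simp
      rw [this, Finset.card_sdiff_of_subset (Finset.subset_univ S), hcard]
    rw [hL, hR]
    apply Finset.prod_le_prod
    · intro φ _
      split_ifs <;> positivity
    · intro φ _
      have hφb : φ (b : K) ≠ 0 := (map_ne_zero φ).2 hbL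
      have e1 : φ ((U : 𝓞 K) : K) = φ (a : K) ^ e * (φ (a : K) - φ (b : K)) * φ (b : K) ^ e := by
        rw [hU]
        simp
      rw [e1, norm_mul, norm_mul, norm_pow, norm_pow]
      by_cases hφS : φ ∈ S
      · rw [if_pos hφS, if_pos hφS, one_mul]
        obtain ⟨t, ht, hφ⟩ := hpos φ hφS
        have hφa : φ (a : K) = t * φ (b : K) := by
          have : φ ((a : K) / b) = t := hφ
          rw [map_div₀, div_eq_iff hφb] at this
          exact this
        have e2 : φ (a : K) - φ (b : K) = ((t - 1 : ℝ) : ℂ) * φ (b : K) := by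
          rw [hφa]; push_cast; ring
        rw [e2, norm_mul, hφa, norm_mul, Complex.norm_real, Complex.norm_real,
          Real.norm_of_nonneg ht.le]
        have hβ : 0 < ‖φ (b : K)‖ := norm_pos_iff.mpr hφb
        set β := ‖φ (b : K)‖ with hβdef
        have e3 : max (t * β) β = max t 1 * β := by
          rw [max_mul_of_nonneg _ _ hβ.le, one_mul]
        have e4 : ((e : ℝ) + 1) * ((t * β) ^ e * (‖t - 1‖ * β) * β ^ e) =
            (((e : ℝ) + 1) * (t ^ e * |t - 1|)) * β ^ (2 * e + 1) := by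
          rw [mul_pow, Real.norm_eq_abs]
          ring
        rw [e3, e4, mul_pow]
        exact mul_le_mul_of_nonneg_right (real_ineq2 ht e) (by positivity)
      · rw [if_neg hφS, if_neg hφS, one_mul]
        set A := ‖φ (a : K)‖ with hA
        set B := ‖φ (b : K)‖ with hB
        have hA0 : 0 ≤ A := norm_nonneg _
        have hB0 : 0 ≤ B := norm_nonneg _
        have e5 : ‖φ (a : K) - φ (b : K)‖ ≤ 2 * max A B := by
          have := norm_sub_le (φ (a : K)) (φ (b : K))
          have h3 := le_max_left A B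
          have h4 := le_max_right A B
          linarith
        have hm0 : 0 ≤ max A B := le_max_of_le_left hA0
        calc A ^ e * ‖φ (a : K) - φ (b : K)‖ * B ^ e
            ≤ (max A B) ^ e * (2 * max A B) * (max A B) ^ e := by
              apply mul_le_mul
              · exact mul_le_mul (pow_le_pow_left₀ hA0 (le_max_left _ _) _) e5 (norm_nonneg _)
                  (by positivity)
              · exact pow_le_pow_left₀ hB0 (le_max_right _ _) _
              · positivity
              · positivity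
          _ = 2 * (max A B) ^ (2 * e + 1) := by ring
  have hMh : M = mulHeight₁ ((a : K) / b) * Ideal.absNorm I := (mulHeight₁_frac a b hb0).symm
  have hSle : S.card ≤ finrank ℚ K := by
    rw [← hcard]
    exact Finset.card_le_card (Finset.subset_univ S)
  have hmain : ((e : ℝ) + 1) ^ S.card ≤
      2 ^ (finrank ℚ K - S.card) * mulHeight₁ ((a : K) / b) ^ (2 * e + 1) := by
    have h2 : ((e : ℝ) + 1) ^ S.card * (Ideal.absNorm I : ℝ) ^ (2 * e + 1) ≤
        (2 ^ (finrank ℚ K - S.card) * mulHeight₁ ((a : K) / b) ^ (2 * e + 1)) *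
          (Ideal.absNorm I : ℝ) ^ (2 * e + 1) := by
      calc _ ≤ ((e : ℝ) + 1) ^ S.card * (Ideal.absNorm (Ideal.span {U}) : ℝ) := by
            apply mul_le_mul_of_nonneg_left _ (by positivity)
            exact_mod_cast hle
        _ ≤ 2 ^ (finrank ℚ K - S.card) * M ^ (2 * e + 1) := hub
        _ = _ := by rw [hMh, mul_pow]; ring
    exact le_of_mul_le_mul_right h2 (by positivity)
  have hpos' : 0 < mulHeight₁ ((a : K) / b) := mulHeight₁_pos _
  have h3 := Real.log_le_log (by positivity) hmain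
  have he' : ((e : ℝ) + 1) = 2 ^ m := by exact_mod_cast he
  rw [he', Real.log_mul (by positivity) (by positivity), Real.log_pow, Real.log_pow, Real.log_pow,
    Real.log_pow, ← logHeight₁_eq_log_mulHeight₁, Nat.cast_sub hSle] at h3
  push_cast at h3
  have hlog : 0 < Real.log 2 := Real.log_pos (by norm_num)
  have hc' : (finrank ℚ K : ℝ) ≤ m * S.card := by exact_mod_cast hc
  have hm0 : (0 : ℝ) ≤ m := Nat.cast_nonneg m
  set h := logHeight₁ ((algebraMap (𝓞 K) K) a / (algebraMap (𝓞 K) K) b) with hh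
  have h4 : (S.card : ℝ) * Real.log 2 ≤ (2 * e + 1) * h := by
    have h5 : (S.card : ℝ) * (m * Real.log 2) ≤
      (finrank ℚ K - S.card) * Real.log 2 + (2 * e + 1) * h := h3
    nlinarith
  calc (finrank ℚ K : ℝ) * Real.log 2 ≤ (m * S.card) * Real.log 2 :=
        mul_le_mul_of_nonneg_right hc' hlog.le
    _ = m * (S.card * Real.log 2) := by ring
    _ ≤ m * ((2 * e + 1) * h) := mul_le_mul_of_nonneg_left h4 hm0
    _ = m * (2 * e + 1) * h := by ring

end Pool.Agent.helper69.CM
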