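import Pool.Agent.helper69.CM.Field
import Pool.Agent.helper69.CM.Low2
import Pool.Agent.helper69.CM.Gen
import Pool.Agent.helper79.SL.Fin
import Pool.Agent.helper69.SLH.Stmt

set_option autoImplicit false

/-!
# The compositum of a number field and the maximal CM field
-/

namespace Pool.Agent.helper69.CM

open NumberField Height Finset Module IntermediateField
open Pool.Agent.helper79.SL Pool.Agent.helper69.SLH
open scoped ComplexConjugate

/-- the image of a normal field -/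
theorem range_iff {K : IntermediateField ℚ ℂ} [h : Normal ℚ K] (φ : K →+* ℂ) (z : ℂ) :
    (∃ a, φ a = z) ↔ z ∈ K := by
  have h' : @Normal ℚ K _ _ (IntermediateField.algebra' K) := by
    have e : (DivisionRing.toRatAlgebra : Algebra ℚ K) = IntermediateField.algebra' K :=
      Subsingleton.elim _ _
    rw [← e]
    exact h
  let f : @AlgHom ℚ K ℂ _ _ _ (IntermediateField.algebra' K) _ :=
    @AlgHom.mk ℚ K ℂ _ _ _ (IntermediateField.algebra' K) _ φ (by
      intro r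
      have h1 : (@algebraMap ℚ K _ _ (IntermediateField.algebra' K)) r = (r : K) := eq_ratCast _ r
      have h2 : algebraMap ℚ ℂ r = (r : ℂ) := eq_ratCast _ r
      rw [h2]
      refine Eq.trans (congrArg φ h1) ?_
      exact map_ratCast φ r)
  have h3 := @AlgHom.fieldRange_of_normal ℚ ℂ _ _ _ K h' f
  constructor
  · rintro ⟨a, ha⟩
    rw [← h3, ← ha]
    exact ⟨a, rfl⟩
  · intro hz
    rw [← h3] at hz
    obtain ⟨a, ha⟩ := hz
    exact ⟨a, ha⟩

instance Om_normal : Normal ℚ Om := by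
  haveI : IsAlgClosure ℚ Om := algebraicClosure.isAlgClosure ℚ ℂ
  exact IsAlgClosure.normal ℚ Om

theorem le_Om (K : IntermediateField ℚ ℂ) [FiniteDimensional ℚ K] : K ≤ Om := by
  intro x hx
  rw [mem_Om]
  have : IsAlgebraic ℚ (⟨x, hx⟩ : K) := Algebra.IsAlgebraic.isAlgebraic _
  exact this.algebraMap (A := ℂ)

theorem Lcm_le_Om : Lcm ≤ Om := fun _ hx => mem_Om.mpr (alg_of_mem hx)

/-- complex conjugation pulled back by an embedding -/
theorem exists_tau (ψ : Om →ₐ[ℚ] ℂ) : ∃ τ : Om →ₐ[ℚ] Om, ∀ x, ψ (τ x) = conj (ψ x) := by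
  have hr : ψ.fieldRange = Om := AlgHom.fieldRange_of_normal ψ
  have hex : ∀ x : Om, ∃ y : Om, ψ y = conj (ψ x) := by
    intro x
    have h1 : ψ x ∈ Om := by
      have : ψ x ∈ ψ.fieldRange := ⟨x, rfl⟩
      rwa [hr] at this
    have h2 : conj (ψ x) ∈ ψ.fieldRange := by
      rw [hr]
      exact cj_mem h1
    exact h2
  choose f hf using hex
  refine ⟨{ toFun := f, map_one' := ?_, map_mul' := ?_, map_zero' := ?_, map_add' := ?_,
            commutes' := ?_ }, hf⟩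
  · refine ψ.injective (?_ : ψ _ = ψ _)
    rw [hf, map_one, map_one]
  · intro x y
    refine ψ.injective (?_ : ψ _ = ψ _)
    rw [hf, map_mul, map_mul, map_mul, hf, hf]
  · refine ψ.injective (?_ : ψ _ = ψ _)
    rw [hf, map_zero, map_zero]
  · intro x y
    refine ψ.injective (?_ : ψ _ = ψ _)
    rw [hf, map_add, map_add, map_add, hf, hf]
  · intro r
    refine ψ.injective (?_ : ψ _ = ψ _)
    show ψ (f (algebraMap ℚ Om r)) = ψ (algebraMap ℚ Om r)
    rw [hf, AlgHom.commutes]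
    exact AlgHom.commutes cj r

theorem tau_Lcm {ψ : Om →ₐ[ℚ] ℂ} {τ : Om →ₐ[ℚ] Om} (h : ∀ x, ψ (τ x) = conj (ψ x)) {x : Om}
    (hx : (x : ℂ) ∈ Lcm) : τ x = cO x := by
  obtain ⟨y, hy, hyx⟩ := Lcm_le hx
  have : y = x := Subtype.ext hyx
  subst this
  refine ψ.injective (?_ : ψ _ = ψ _)
  rw [h y]
  exact (mem_TT.mp hy ψ).symm

/-- the elements on which two homomorphisms agree -/
noncomputable def eqF (τ τ' : Om →ₐ[ℚ] Om) : IntermediateField ℚ Om where
  carrier := {x | τ x = τ' x}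
  mul_mem' := by
    intro x y hx hy
    show τ (x * y) = τ' (x * y)
    rw [map_mul, map_mul, hx, hy]
  add_mem' := by
    intro x y hx hy
    show τ (x + y) = τ' (x + y)
    rw [map_add, map_add, hx, hy]
  algebraMap_mem' := by
    intro r
    show τ _ = τ' _
    rw [AlgHom.commutes, AlgHom.commutes]
  inv_mem' := by
    intro x hx
    show τ x⁻¹ = τ' x⁻¹
    rw [map_inv₀, map_inv₀, hx]

theorem agree {k : IntermediateField ℚ ℂ} (hk : k ≤ Om) {τ τ' : Om →ₐ[ℚ] Om}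
    (h1 : ∀ x : Om, (x : ℂ) ∈ k → τ x = τ' x) (h2 : ∀ x : Om, (x : ℂ) ∈ Lcm → τ x = τ' x)
    {x : Om} (hx : (x : ℂ) ∈ k ⊔ Lcm) : τ x = τ' x := by
  have hle : k ⊔ Lcm ≤ (eqF τ τ').map Om.val := by
    apply sup_le
    · intro y hy
      exact ⟨⟨y, hk hy⟩, h1 ⟨y, hk hy⟩ hy, rfl⟩
    · intro y hy
      exact ⟨⟨y, Lcm_le_Om hy⟩, h2 ⟨y, Lcm_le_Om hy⟩ hy, rfl⟩
  obtain ⟨y, hy, hyx⟩ := hle hx
  have : y = x := Subtype.ext hyx
  subst this
  exact hy

/-- the inverse image of a field -/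
noncomputable def preF (ψ : Om →ₐ[ℚ] ℂ) (L : IntermediateField ℚ ℂ) : IntermediateField ℚ Om where
  carrier := {x | ψ x ∈ L}
  mul_mem' := by
    intro x y hx hy
    show ψ (x * y) ∈ L
    rw [map_mul]
    exact mul_mem hx hy
  add_mem' := by
    intro x y hx hy
    show ψ (x + y) ∈ L
    rw [map_add]
    exact add_mem hx hy
  algebraMap_mem' := by
    intro r
    show ψ _ ∈ L
    rw [AlgHom.commutes]
    exact L.algebraMap_mem r
  inv_mem' := by
    intro x hx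
    show ψ x⁻¹ ∈ L
    rw [map_inv₀]
    exact inv_mem hx

/-- the compositum is closed under conjugation -/
theorem conj_closed (k : IntermediateField ℚ ℂ) [FiniteDimensional ℚ k] [Normal ℚ k]
    (ψ : Om →ₐ[ℚ] ℂ) {x : Om} (hx : (x : ℂ) ∈ k ⊔ Lcm) : ψ x ∈ k ⊔ Lcm := by
  have hle : k ⊔ Lcm ≤ (preF ψ (k ⊔ Lcm)).map Om.val := by
    apply sup_le
    · intro y hy
      refine ⟨⟨y, le_Om k hy⟩, ?_, rfl⟩
      have h1 : ψ ⟨y, le_Om k hy⟩ ∈ k :=
        (range_iff (ψ.comp (IntermediateField.inclusion (le_Om k))).toRingHom _).mp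
          ⟨⟨y, hy⟩, rfl⟩
      exact (le_sup_left : k ≤ k ⊔ Lcm) h1
    · unfold Lcm
      rw [adjoin_le_iff]
      rintro y (hy | hy)
      · obtain ⟨halg, hreal⟩ := hy
        set Y : Om := ⟨y, mem_Om.mpr halg⟩ with hY
        refine ⟨Y, ?_, rfl⟩
        have h1 : TotReal (ψ Y) := by
          refine ⟨?_, fun z hz => hreal z ?_⟩
          · have : IsAlgebraic ℚ Y := Algebra.IsAlgebraic.isAlgebraic _
            exact IsAlgebraic.algHom ψ this
          · have e1 : minpoly ℚ (ψ Y) = minpoly ℚ Y := minpoly.algHom_eq ψ ψ.injective Y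
            have e2 : minpoly ℚ (Y : ℂ) = minpoly ℚ Y :=
              minpoly.algebraMap_eq (algebraMap Om ℂ).injective Y
            have e3 : (Y : ℂ) = y := rfl
            rw [e1, ← e2, e3] at hz
            exact hz
        exact (le_sup_right : Lcm ≤ k ⊔ Lcm) (subset_adjoin ℚ _ (Or.inl h1))
      · rw [Set.mem_singleton_iff] at hy
        subst hy
        refine ⟨⟨Complex.I, mem_Om.mpr I_alg⟩, ?_, rfl⟩
        have hI : Complex.I ∈ k ⊔ Lcm :=
          (le_sup_right : Lcm ≤ k ⊔ Lcm) (subset_adjoin ℚ _ (Or.inr rfl))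
        show ψ ⟨Complex.I, mem_Om.mpr I_alg⟩ ∈ k ⊔ Lcm
        rcases emb_I ψ ⟨Complex.I, mem_Om.mpr I_alg⟩ rfl with h | h
        · rw [h]; exact hI
        · rw [h]; exact neg_mem hI
  obtain ⟨y, hy, hyx⟩ := hle hx
  have : y = x := Subtype.ext hyx
  subst this
  exact hy

/-- the splitting field of the minimal polynomial -/
theorem exists_split {γ : ℂ} (halg : IsAlgebraic ℚ γ) : ∃ K : IntermediateField ℚ ℂ,
    FiniteDimensional ℚ K ∧ Normal ℚ K ∧
      (∀ z : ℂ, Polynomial.aeval z (minpoly ℚ γ) = 0 → z ∈ K) ∧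
      ∀ L : IntermediateField ℚ ℂ, (∀ z : ℂ, Polynomial.aeval z (minpoly ℚ γ) = 0 → z ∈ L) → K ≤ L := by
  have hp0 : minpoly ℚ γ ≠ 0 := minpoly.ne_zero halg.isIntegral
  have hmem : ∀ z : ℂ, z ∈ (minpoly ℚ γ).rootSet ℂ ↔ Polynomial.aeval z (minpoly ℚ γ) = 0 := by
    intro z
    rw [Polynomial.mem_rootSet]
    exact ⟨fun h => h.2, fun h => ⟨hp0, h⟩⟩
  refine ⟨adjoin ℚ ((minpoly ℚ γ).rootSet ℂ), ?_, ?_, ?_, ?_⟩
  · haveI : Finite ((minpoly ℚ γ).rootSet ℂ) := Polynomial.rootSet_finite _ _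
    apply finiteDimensional_adjoin
    intro x hx
    exact (IsAlgebraic.isIntegral ⟨_, hp0, (hmem x).mp hx⟩)
  · haveI : (minpoly ℚ γ).IsSplittingField ℚ (adjoin ℚ ((minpoly ℚ γ).rootSet ℂ)) :=
      adjoin_rootSet_isSplittingField (IsAlgClosed.splits _)
    exact Normal.of_isSplittingField (minpoly ℚ γ)
  · intro z hz
    exact subset_adjoin ℚ _ ((hmem z).mpr hz)
  · intro L hL
    rw [adjoin_le_iff]
    intro z hz
    exact hL z ((hmem z).mp hz)

/-- **Lower bound of the height in the compositum**, for numbers with a conjugate off the unit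
circle. -/
theorem low (k : IntermediateField ℚ ℂ) [FiniteDimensional ℚ k] [Normal ℚ k] {d : ℕ}
    (hd : finrank ℚ k ≤ d) {γ : ℂ} (hγ : γ ∈ k ⊔ Lcm) (h0 : γ ≠ 0)
    (hz : ∃ z : ℂ, Polynomial.aeval z (minpoly ℚ γ) = 0 ∧ ‖z‖ ≠ 1) :
    Real.log 2 / (2 * d * (2 ^ (d + 1) - 1)) ≤ ht γ := by
  classical
  have hkO := le_Om k
  have hcO : k ⊔ Lcm ≤ Om := sup_le hkO Lcm_le_Om
  have halg : IsAlgebraic ℚ γ := mem_Om.mp (hcO hγ)
  set G : Om := ⟨γ, hcO hγ⟩ with hG
  obtain ⟨K, hKf, hKn, hKr, hKle⟩ := exists_split halg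
  haveI : NumberField K := {}
  have hγK : γ ∈ K := hKr γ (minpoly.aeval ℚ γ)
  have hKL : K ≤ k ⊔ Lcm := by
    apply hKle
    intro z hz
    obtain ⟨ψ, hψ⟩ := (root_iff G z).mp hz
    rw [← hψ]
    exact conj_closed k ψ hγ
  have hKO : K ≤ Om := hKL.trans hcO
  choose ψ hψ using fun φ : K →+* ℂ => exists_ext K φ
  choose τ hτ using fun φ : K →+* ℂ => exists_tau (ψ φ)
  let col : (K →+* ℂ) → (k →ₐ[ℚ] ℂ) := fun φ =>
    (Om.val.comp (τ φ)).comp (IntermediateField.inclusion hkO)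
  have hcard : (Finset.univ : Finset (K →+* ℂ)).card = finrank ℚ K := by
    rw [Finset.card_univ, Embeddings.card]
  have hdK : 0 < finrank ℚ K := finrank_pos
  haveI hne : Nonempty (k →ₐ[ℚ] ℂ) := ⟨k.val⟩
  obtain ⟨g, _, hgmax⟩ := Finset.exists_max_image (Finset.univ : Finset (k →ₐ[ℚ] ℂ))
    (fun g => (Finset.univ.filter (fun φ : K →+* ℂ => col φ = g)).card) Finset.univ_nonempty
  set S : Finset (K →+* ℂ) := Finset.univ.filter (fun φ : K →+* ℂ => col φ = g) with hS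
  have hc : finrank ℚ K ≤ d * S.card := by
    have h1 := Finset.card_eq_sum_card_fiberwise (f := col) (s := (Finset.univ : Finset (K →+* ℂ)))
      (t := (Finset.univ : Finset (k →ₐ[ℚ] ℂ))) (fun _ _ => Finset.mem_univ _)
    rw [hcard] at h1
    have h2 : ∑ b : (k →ₐ[ℚ] ℂ), (Finset.univ.filter (fun φ : K →+* ℂ => col φ = b)).card ≤
        ∑ _b : (k →ₐ[ℚ] ℂ), S.card := Finset.sum_le_sum fun b _ => hgmax b (Finset.mem_univ b)
    rw [Finset.sum_const, Finset.card_univ, AlgHom.card, smul_eq_mul] at h2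
    calc finrank ℚ K ≤ finrank ℚ k * S.card := h1.le.trans h2
      _ ≤ d * S.card := Nat.mul_le_mul_right _ hd
  have hSne : S.Nonempty := by
    rw [← Finset.card_pos]
    by_contra h
    have : S.card = 0 := by omega
    rw [this, mul_zero] at hc
    omega
  obtain ⟨φ₁, hφ₁⟩ := hSne
  obtain ⟨z, hz0, hz1⟩ := hz
  have hzK : z ∈ K := hKr z hz0
  obtain ⟨ψ₀, hψ₀⟩ := (root_iff G z).mp hz0
  obtain ⟨γ', hγ'⟩ : ∃ γ' : K, φ₁ γ' = z := (range_iff φ₁ z).mpr hzK
  have hht : ht (γ' : ℂ) = ht γ := by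
    have e1 : ht (γ' : ℂ) = ht (φ₁ γ') := ht_conj (algebraMap K ℂ) φ₁ γ'
    have e2 : ht (ψ₀ G) = ht γ := by
      have := ht_conj ((ψ₀.comp (IntermediateField.inclusion hKO)).toRingHom) (algebraMap K ℂ)
        (⟨γ, hγK⟩ : K)
      exact this
    rw [e1, hγ', ← hψ₀, e2]
  have hz00 : z ≠ 0 := by
    intro h
    apply h0
    have : ψ₀ G = ψ₀ 0 := by rw [hψ₀, h, map_zero]
    have h3 := ψ₀.injective this
    exact congrArg (fun x : Om => (x : ℂ)) h3
  have hγ'0 : γ' ≠ 0 := by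
    intro h
    apply hz00
    rw [← hγ', h, map_zero]
  set g' : Om := ⟨γ', hKO γ'.2⟩ with hg'
  set c' : Om := τ φ₁ g' with hc'
  let f : K →ₐ[ℚ] ℂ := (Om.val.comp (τ φ₁)).comp (IntermediateField.inclusion hKO)
  have hc'K : (c' : ℂ) ∈ K := (range_iff f.toRingHom _).mp ⟨γ', rfl⟩
  set cK : K := ⟨c', hc'K⟩ with hcK
  have hcK0 : cK ≠ 0 := by
    intro h
    have h1 : (c' : ℂ) = 0 := congrArg (fun x : K => (x : ℂ)) h
    have h2 : c' = 0 := Subtype.ext h1
    have h3 : g' = 0 := (map_eq_zero (τ φ₁)).mp h2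
    apply hγ'0
    exact Subtype.ext (congrArg (fun x : Om => (x : ℂ)) h3)
  have hpos : ∀ φ ∈ S, φ (γ' * cK) = ((Complex.normSq (φ γ') : ℝ) : ℂ) := by
    intro φ hφ
    have hcol : col φ = col φ₁ := (Finset.mem_filter.mp hφ).2.trans (Finset.mem_filter.mp hφ₁).2.symm
    have hag : τ φ g' = τ φ₁ g' := by
      apply agree hkO
      · intro x hx
        have h1 := DFunLike.congr_fun hcol (⟨x, hx⟩ : k)
        exact Subtype.ext h1
      · intro x hx
        rw [tau_Lcm (hτ φ) hx, tau_Lcm (hτ φ₁) hx]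
      · exact hKL γ'.2
    have e1 : φ cK = conj (φ γ') := by
      rw [← hψ φ cK c' rfl, ← hψ φ γ' g' rfl, hc', ← hag]
      exact hτ φ g'
    rw [map_mul, e1, Complex.mul_conj]
  have hb := tpm_bound (γ' * cK) (mul_ne_zero hγ'0 hcK0) (by
    intro h
    have h1 := hpos φ₁ hφ₁
    rw [h, map_one, hγ', Complex.normSq_eq_norm_sq] at h1
    have h2 : (1 : ℝ) = ‖z‖ ^ 2 := by exact_mod_cast h1
    apply hz1
    have h3 : (‖z‖ - 1) * (‖z‖ + 1) = 0 := by linear_combination -h2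
    rcases mul_eq_zero.mp h3 with h4 | h4
    · linarith
    · have := norm_nonneg z
      linarith) S (fun φ hφ => ⟨Complex.normSq (φ γ'),
        Complex.normSq_pos.mpr ((map_ne_zero φ).mpr hγ'0), hpos φ hφ⟩) (m := d) (e := 2 ^ d - 1)
      (by
        have : 1 ≤ 2 ^ d := Nat.one_le_two_pow
        omega) hc
  have e1 := ht_eq' K (γ' * cK)
  have halg' : IsAlgebraic ℚ (γ' : ℂ) := mem_Om.mp (hKO γ'.2)
  have halgc : IsAlgebraic ℚ (cK : ℂ) := mem_Om.mp (hKO cK.2)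
  have e2 : ht (((γ' * cK : K)) : ℂ) ≤ ht (γ' : ℂ) + ht (cK : ℂ) := ht_mul_le halg' halgc
  have e3 : ht (cK : ℂ) = ht (γ' : ℂ) := ht_conj f.toRingHom (algebraMap K ℂ) γ'
  have hdK' : (0 : ℝ) < finrank ℚ K := by exact_mod_cast hdK
  rw [e1, e3, hht, div_le_iff₀ hdK'] at e2
  have hd1 : 1 ≤ d := le_trans (finrank_pos : 0 < finrank ℚ k) hd
  have hd' : (0 : ℝ) < d := by exact_mod_cast hd1
  have hcast : ((2 ^ d - 1 : ℕ) : ℝ) = 2 ^ d - 1 := by
    rw [Nat.cast_sub Nat.one_le_two_pow]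
    push_cast
    ring
  rw [hcast] at hb
  have h2d : (1 : ℝ) ≤ 2 ^ d := one_le_pow₀ (by norm_num)
  have hq : (0 : ℝ) < 2 ^ (d + 1) - 1 := by
    rw [pow_succ]
    linarith
  rw [div_le_iff₀ (by positivity)]
  have h5 : (finrank ℚ K : ℝ) * Real.log 2 ≤
      (finrank ℚ K : ℝ) * (ht γ * (2 * d * (2 ^ (d + 1) - 1))) := by
    have h6 : (d : ℝ) * (2 * (2 ^ d - 1) + 1) = d * (2 ^ (d + 1) - 1) := by
      rw [pow_succ]; ring
    rw [h6] at hb
    calc (finrank ℚ K : ℝ) * Real.log 2 ≤ d * (2 ^ (d + 1) - 1) * logHeight₁ (γ' * cK) := hb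
      _ ≤ d * (2 ^ (d + 1) - 1) * ((ht γ + ht γ) * finrank ℚ K) :=
          mul_le_mul_of_nonneg_left e2 (by positivity)
      _ = _ := by ring
  exact le_of_mul_le_mul_left h5 hdK'

/-- numbers all of whose conjugates are on the unit circle -/
theorem uni_low2 {x : ℂ} (huni : ∀ z : ℂ, Polynomial.aeval z (minpoly ℚ x) = 0 → ‖z‖ = 1)
    (hroot : ∀ k : ℕ, 0 < k → x ^ k ≠ 1)
    (K : IntermediateField ℚ ℂ) [FiniteDimensional ℚ K] (hxK : x ∈ K) :
    Real.log 2 / finrank ℚ K ≤ ht x := by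
  haveI : NumberField K := {}
  set a : K := ⟨x, hxK⟩ with ha
  have hb := uni_bound a (fun φ => by
    apply huni
    obtain ⟨ψ, hψ⟩ := exists_ext K φ
    exact (root_iff ⟨x, le_Om K hxK⟩ _).mpr ⟨ψ, hψ a _ rfl⟩) (fun k hk h => hroot k hk (by
      have := congrArg (fun z : K => (z : ℂ)) h
      simpa using this))
  have e1 := ht_eq' K a
  have hd : (0 : ℝ) < finrank ℚ K := by exact_mod_cast (finrank_pos : 0 < finrank ℚ K)
  have e2 : ht x = logHeight₁ a / finrank ℚ K := e1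
  rw [e2]
  exact div_le_div_of_nonneg_right hb hd.le

end Pool.Agent.helper69.CM
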