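import Pool.Agent.helper69.CM.Low

set_option autoImplicit false

/-!
# The field generated by `i` and the totally real numbers
-/

namespace Pool.Agent.helper69.CM

open NumberField Height Finset Module IntermediateField
open Pool.Agent.helper79.SL
open scoped ComplexConjugate

/-- totally real algebraic numbers -/
def TotReal (x : ℂ) : Prop :=
  IsAlgebraic ℚ x ∧ ∀ z : ℂ, Polynomial.aeval z (minpoly ℚ x) = 0 → z.im = 0

/-- the field generated by `i` and all totally real algebraic numbers -/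
noncomputable def Lcm : IntermediateField ℚ ℂ :=
  adjoin ℚ ({x : ℂ | TotReal x} ∪ {Complex.I})

/-- the algebraic numbers -/
noncomputable abbrev Om : IntermediateField ℚ ℂ := algebraicClosure ℚ ℂ

theorem mem_Om {x : ℂ} : x ∈ Om ↔ IsAlgebraic ℚ x := mem_algebraicClosure_iff

instance Om_alg : Algebra.IsAlgebraic ℚ Om := algebraicClosure.isAlgebraic ℚ ℂ

/-- complex conjugation over `ℚ` -/
noncomputable def cj : ℂ →ₐ[ℚ] ℂ := (starRingEnd ℂ).toRatAlgHom

theorem cj_apply (x : ℂ) : cj x = conj x := rfl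

theorem cj_mem {x : ℂ} (hx : x ∈ Om) : cj x ∈ Om := by
  rw [mem_Om] at hx ⊢
  exact IsAlgebraic.algHom cj hx

/-- complex conjugation of algebraic numbers -/
noncomputable def cO (x : Om) : Om := ⟨cj x, cj_mem x.2⟩

theorem cO_coe (x : Om) : ((cO x : Om) : ℂ) = conj (x : ℂ) := rfl

/-- the algebraic numbers for which complex conjugation commutes with all embeddings -/
noncomputable def TT : IntermediateField ℚ Om where
  carrier := {x | ∀ φ : Om →ₐ[ℚ] ℂ, φ (cO x) = conj (φ x)}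
  mul_mem' := by
    intro x y hx hy φ
    have h : cO (x * y) = cO x * cO y := Subtype.ext (map_mul cj _ _)
    rw [h, map_mul, map_mul, map_mul, hx φ, hy φ]
  add_mem' := by
    intro x y hx hy φ
    have h : cO (x + y) = cO x + cO y := Subtype.ext (map_add cj _ _)
    rw [h, map_add, map_add, map_add, hx φ, hy φ]
  algebraMap_mem' := by
    intro r φ
    have h : cO (algebraMap ℚ Om r) = algebraMap ℚ Om r := by
      apply Subtype.ext
      show cj (algebraMap ℚ ℂ r) = algebraMap ℚ ℂ r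
      exact AlgHom.commutes cj r
    rw [h, AlgHom.commutes]
    exact (AlgHom.commutes cj r).symm
  inv_mem' := by
    intro x hx φ
    have h : cO x⁻¹ = (cO x)⁻¹ := Subtype.ext (map_inv₀ cj _)
    rw [h, map_inv₀, map_inv₀, map_inv₀, hx φ]

theorem mem_TT {x : Om} : x ∈ TT ↔ ∀ φ : Om →ₐ[ℚ] ℂ, φ (cO x) = conj (φ x) := Iff.rfl

/-- conjugates of algebraic numbers are the values of embeddings -/
theorem root_iff (x : Om) (z : ℂ) :
    Polynomial.aeval z (minpoly ℚ (x : ℂ)) = 0 ↔ ∃ φ : Om →ₐ[ℚ] ℂ, φ x = z := by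
  have h1 := Algebra.IsAlgebraic.range_eval_eq_rootSet_minpoly (F := ℚ) (A := ℂ) x
  have hx0 : minpoly ℚ x ≠ 0 := minpoly.ne_zero (Algebra.IsIntegral.isIntegral x)
  have h2 : z ∈ (minpoly ℚ x).rootSet ℂ ↔ Polynomial.aeval z (minpoly ℚ x) = 0 := by
    rw [Polynomial.mem_rootSet]
    exact ⟨fun h => h.2, fun h => ⟨hx0, h⟩⟩
  have h3 : minpoly ℚ (x : ℂ) = minpoly ℚ x :=
    minpoly.algebraMap_eq (algebraMap Om ℂ).injective x
  rw [h3, ← h2, ← h1]
  rfl

theorem emb_I (φ : Om →ₐ[ℚ] ℂ) (i : Om) (hi : (i : ℂ) = Complex.I) :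
    φ i = Complex.I ∨ φ i = -Complex.I := by
  have h1 : i * i = -1 := by
    apply Subtype.ext
    show (i : ℂ) * (i : ℂ) = ((-1 : Om) : ℂ)
    rw [hi, Complex.I_mul_I]
    push_cast
    rfl
  have h2 : φ i * φ i = -1 := by rw [← map_mul, h1, map_neg, map_one]
  have h3 : (φ i - Complex.I) * (φ i + Complex.I) = 0 := by
    have := Complex.I_mul_I
    linear_combination h2 - this
  rcases mul_eq_zero.mp h3 with h | h
  · exact Or.inl (sub_eq_zero.mp h)
  · exact Or.inr (eq_neg_of_add_eq_zero_left h)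

theorem I_alg : IsAlgebraic ℚ Complex.I := by
  refine ⟨Polynomial.X ^ 2 + 1, ?_, ?_⟩
  · intro h
    have := congrArg (Polynomial.eval 0) h
    simp at this
  · simp [Complex.I_sq]

theorem Lcm_le : Lcm ≤ TT.map Om.val := by
  unfold Lcm
  rw [adjoin_le_iff]
  rintro x (hx | hx)
  · obtain ⟨halg, hreal⟩ := hx
    refine ⟨⟨x, mem_Om.mpr halg⟩, ?_, rfl⟩
    set X : Om := ⟨x, mem_Om.mpr halg⟩ with hX
    have hre : ∀ φ : Om →ₐ[ℚ] ℂ, conj (φ X) = φ X := by
      intro φ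
      have h1 : (φ X).im = 0 := hreal _ ((root_iff X _).mpr ⟨φ, rfl⟩)
      exact Complex.conj_eq_iff_im.mpr h1
    show X ∈ TT
    rw [mem_TT]
    intro φ
    rw [hre φ]
    have h2 : cO X = X := by
      apply Subtype.ext
      exact hre Om.val
    rw [h2]
  · rw [Set.mem_singleton_iff] at hx
    subst hx
    refine ⟨⟨Complex.I, mem_Om.mpr I_alg⟩, ?_, rfl⟩
    set i : Om := ⟨Complex.I, mem_Om.mpr I_alg⟩ with hi
    show i ∈ TT
    rw [mem_TT]
    intro φ
    have h2 : cO i = -i := by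
      apply Subtype.ext
      show conj Complex.I = -Complex.I
      exact Complex.conj_I
    rw [h2, map_neg]
    rcases emb_I φ i rfl with h | h
    · rw [h, Complex.conj_I]
    · rw [h, map_neg, Complex.conj_I]

theorem alg_of_mem {x : ℂ} (hx : x ∈ Lcm) : IsAlgebraic ℚ x := by
  obtain ⟨y, _, rfl⟩ := Lcm_le hx
  exact mem_Om.mp y.2

/-- embeddings of a number field extend -/
theorem exists_ext (K : IntermediateField ℚ ℂ) [FiniteDimensional ℚ K] (φ : K →+* ℂ) :
    ∃ ψ : Om →ₐ[ℚ] ℂ, ∀ (x : K) (y : Om), (y : ℂ) = x → ψ y = φ x := by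
  have hK : K ≤ Om := by
    intro x hx
    rw [mem_Om]
    have : IsAlgebraic ℚ (⟨x, hx⟩ : K) := Algebra.IsAlgebraic.isAlgebraic _
    exact this.algebraMap (A := ℂ)
  letI : Algebra K Om := (IntermediateField.inclusion hK).toAlgebra
  haveI : IsScalarTower ℚ K Om := IsScalarTower.of_algebraMap_eq fun x => rfl
  haveI : Algebra.IsAlgebraic K Om := Algebra.IsAlgebraic.tower_top (K := ℚ) K
  obtain ⟨ψ, hψ⟩ := IsAlgClosed.surjective_domRestrict_of_isAlgebraic (K := ℚ) (L := K) (M := ℂ)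
    (E := Om) (φ.toRatAlgHom)
  refine ⟨ψ, fun x y hxy => ?_⟩
  have h1 : y = algebraMap K Om x := Subtype.ext hxy
  rw [h1]
  exact DFunLike.congr_fun hψ x

/-- complex conjugation commutes with the embeddings -/
theorem emb_conj {x : ℂ} (hx : x ∈ Lcm) (K : IntermediateField ℚ ℂ) [FiniteDimensional ℚ K]
    (a c : K) (ha : (a : ℂ) = x) (hc : (c : ℂ) = conj x) (φ : K →+* ℂ) : φ c = conj (φ a) := by
  obtain ⟨y, hy, hyx⟩ := Lcm_le hx
  obtain ⟨ψ, hψ⟩ := exists_ext K φ
  have hyx' : (y : ℂ) = x := hyx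
  rw [← hψ a y (hyx'.trans ha.symm), ← hψ c (cO y) (by rw [cO_coe, hyx', hc])]
  exact mem_TT.mp hy ψ

/-- numbers of the field which are not on the unit circle -/
theorem cm_low {x : ℂ} (hx : x ∈ Lcm) (h0 : x ≠ 0) (h1 : ‖x‖ ≠ 1) :
    Real.log (27 / 4) / 8 ≤ ht x := by
  have halg := alg_of_mem hx
  have halgc : IsAlgebraic ℚ (conj x) := IsAlgebraic.algHom cj halg
  obtain ⟨K, hK, hxK⟩ := exists_field ![x, conj x] (by intro i; fin_cases i <;> assumption)
  haveI : NumberField K := {}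
  have hxa : x ∈ K := hxK 0
  have hxc : conj x ∈ K := hxK 1
  set a : K := ⟨x, hxa⟩ with ha
  set c : K := ⟨conj x, hxc⟩ with hc
  have ha0 : a ≠ 0 := fun h => h0 (congrArg (fun z : K => (z : ℂ)) h)
  have hcoe : (((a * c : K)) : ℂ) = ((‖x‖ ^ 2 : ℝ) : ℂ) := by
    show x * conj x = _
    rw [Complex.mul_conj, Complex.normSq_eq_norm_sq]
  have hc0 : c ≠ 0 := by
    intro h
    apply h0
    have : conj x = 0 := congrArg (fun z : K => (z : ℂ)) h
    exact (map_eq_zero _).mp this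
  have hy1 : a * c ≠ 1 := by
    intro h
    rw [h] at hcoe
    have h2 : (1 : ℝ) = ‖x‖ ^ 2 := by
      apply Complex.ofReal_injective
      rw [← hcoe, Complex.ofReal_one]
      rfl
    apply h1
    have h3 : (‖x‖ - 1) * (‖x‖ + 1) = 0 := by linear_combination -h2
    rcases mul_eq_zero.mp h3 with h4 | h4
    · linarith
    · have := norm_nonneg x
      linarith
  have hb := tp_bound (a * c) (mul_ne_zero ha0 hc0) hy1 (fun φ => by
    have e1 := emb_conj hx K a c rfl rfl φ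
    refine ⟨Complex.normSq (φ a), ?_, ?_⟩
    · exact Complex.normSq_pos.mpr ((map_ne_zero φ).mpr ha0)
    · rw [map_mul, e1, Complex.mul_conj])
  have e1 := ht_eq' K (a * c)
  have e2 : ht (((a * c : K)) : ℂ) ≤ ht x + ht (conj x) := by
    have : (((a * c : K)) : ℂ) = x * conj x := rfl
    rw [this]
    exact ht_mul_le halg halgc
  have e3 : ht (conj x) = ht x := by
    have := ht_conj (K := K) ((starRingEnd ℂ).comp (algebraMap K ℂ)) (algebraMap K ℂ) a
    exact this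
  have hd : (0 : ℝ) < finrank ℚ K := by exact_mod_cast (finrank_pos : 0 < finrank ℚ K)
  rw [e1, e3] at e2
  rw [div_le_iff₀ hd] at e2
  have h5 : (finrank ℚ K : ℝ) * Real.log (27 / 4) ≤ (finrank ℚ K : ℝ) * (8 * ht x) := by
    linarith
  have h6 := le_of_mul_le_mul_left h5 hd
  linarith

/-- numbers of the field on the unit circle -/
theorem uni_low {x : ℂ} (hx : x ∈ Lcm) (h1 : ‖x‖ = 1) (hroot : ∀ k : ℕ, 0 < k → x ^ k ≠ 1)
    (K : IntermediateField ℚ ℂ) [FiniteDimensional ℚ K] (hxK : x ∈ K) :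
    Real.log 2 / finrank ℚ K ≤ ht x := by
  haveI : NumberField K := {}
  have hx0 : x ≠ 0 := by
    intro h
    rw [h, norm_zero] at h1
    exact zero_ne_one h1
  have hconj : conj x = x⁻¹ := by
    rw [Complex.inv_def, Complex.normSq_eq_norm_sq, h1]
    simp
  set a : K := ⟨x, hxK⟩ with ha
  have hb := uni_bound a (fun φ => by
    have e1 := emb_conj hx K a a⁻¹ rfl (by rw [hconj]; rfl) φ
    have ha0 : φ a ≠ 0 := (map_ne_zero φ).mpr fun h => hx0 (congrArg (fun z : K => (z : ℂ)) h)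
    rw [map_inv₀] at e1
    have e2 : φ a * conj (φ a) = 1 := by rw [← e1, mul_inv_cancel₀ ha0]
    rw [Complex.mul_conj, Complex.normSq_eq_norm_sq] at e2
    have e3 : ‖φ a‖ ^ 2 = 1 := by exact_mod_cast e2
    have e4 : (‖φ a‖ - 1) * (‖φ a‖ + 1) = 0 := by linear_combination e3
    rcases mul_eq_zero.mp e4 with h4 | h4
    · linarith
    · have := norm_nonneg (φ a)
      linarith) (fun k hk h => hroot k hk (by
      have := congrArg (fun z : K => (z : ℂ)) h
      simpa using this))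
  have e1 := ht_eq' K a
  have hd : (0 : ℝ) < finrank ℚ K := by exact_mod_cast (finrank_pos : 0 < finrank ℚ K)
  have e2 : ht x = logHeight₁ a / finrank ℚ K := e1
  rw [e2]
  exact div_le_div_of_nonneg_right hb hd.le

/-- roots of unity -/
theorem root_mem_Lcm (k : ℕ) (ζ : ℂ) (hk : 0 < k) (h : ζ ^ k = 1) : ζ ∈ Lcm := by
  have hζa : IsAlgebraic ℚ ζ := by
    refine ⟨Polynomial.X ^ k - 1, (Polynomial.monic_X_pow_sub_C 1 hk.ne').ne_zero, ?_⟩
    simp [h]
  set z : Om := ⟨ζ, mem_Om.mpr hζa⟩ with hz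
  set i : Om := ⟨Complex.I, mem_Om.mpr I_alg⟩ with hi
  have hzk : z ^ k = 1 := Subtype.ext (by
    show ζ ^ k = 1
    exact h)
  have hφ : ∀ φ : Om →ₐ[ℚ] ℂ, (φ z)⁻¹ = conj (φ z) := by
    intro φ
    have h2 : (φ z) ^ k = 1 := by rw [← map_pow, hzk, map_one]
    have h3 : ‖φ z‖ = 1 := Complex.norm_eq_one_of_pow_eq_one h2 hk.ne'
    rw [Complex.inv_def, Complex.normSq_eq_norm_sq, h3]
    simp
  have hA : TotReal (ζ + ζ⁻¹) := by
    refine ⟨hζa.add hζa.inv, fun w hw => ?_⟩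
    obtain ⟨φ, hφw⟩ := (root_iff (z + z⁻¹) w).mp (by
      have : (((z + z⁻¹ : Om)) : ℂ) = ζ + ζ⁻¹ := rfl
      rw [this]; exact hw)
    rw [← hφw, map_add, map_inv₀, hφ φ, Complex.add_im, Complex.conj_im]
    ring
  have hB : TotReal (Complex.I * (ζ - ζ⁻¹)) := by
    refine ⟨I_alg.mul (hζa.sub hζa.inv), fun w hw => ?_⟩
    obtain ⟨φ, hφw⟩ := (root_iff (i * (z - z⁻¹)) w).mp (by
      have : (((i * (z - z⁻¹) : Om)) : ℂ) = Complex.I * (ζ - ζ⁻¹) := rfl
      rw [this]; exact hw)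
    rw [← hφw, map_mul, map_sub, map_inv₀, hφ φ]
    rcases emb_I φ i rfl with h4 | h4
    · rw [h4]
      simp [Complex.mul_im]
    · rw [h4]
      simp [Complex.mul_im]
  have hAm : ζ + ζ⁻¹ ∈ Lcm := subset_adjoin ℚ _ (Or.inl hA)
  have hBm : Complex.I * (ζ - ζ⁻¹) ∈ Lcm := subset_adjoin ℚ _ (Or.inl hB)
  have hIm : Complex.I ∈ Lcm := subset_adjoin ℚ _ (Or.inr rfl)
  have h2m : (2 : ℂ) ∈ Lcm := by exact_mod_cast Lcm.algebraMap_mem (2 : ℚ)
  have key : ζ = ((ζ + ζ⁻¹) - Complex.I * (Complex.I * (ζ - ζ⁻¹))) / 2 := by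
    have h5 : Complex.I * (Complex.I * (ζ - ζ⁻¹)) = -(ζ - ζ⁻¹) := by
      rw [← mul_assoc, Complex.I_mul_I]; ring
    rw [h5]
    ring
  rw [key]
  exact div_mem (sub_mem hAm (mul_mem hIm hBm)) h2m

end Pool.Agent.helper69.CM
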