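import Pool.Agent.helper79.SL.AD
import Pool.Agent.helper79.SL.Abs

set_option autoImplicit false

/-!
# Lower bounds of the height: totally positive numbers, and numbers on the unit circle
-/

namespace Pool.Agent.helper69.CM

open NumberField Height Finset Module IntermediateField
open Pool.Agent.helper79.SL

theorem real_ineq {t : ℝ} (ht : 0 < t) : 27 / 4 * (t * (t - 1) ^ 2) ≤ max t 1 ^ 4 := by
  rcases le_total t 1 with h | h
  · rw [max_eq_right h]
    have h1 : 0 ≤ (3 * t - 1) ^ 2 * (4 - 3 * t) := mul_nonneg (sq_nonneg _) (by linarith)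
    nlinarith
  · rw [max_eq_left h]
    have h1 : 0 ≤ (t - 3) ^ 2 * (4 * t - 3) := mul_nonneg (sq_nonneg _) (by linarith)
    have h2 : 0 ≤ t * ((t - 3) ^ 2 * (4 * t - 3)) := mul_nonneg ht.le h1
    nlinarith

variable {K : Type*} [Field K] [NumberField K]

/-- totally positive numbers -/
theorem tp_bound (y : K) (h0 : y ≠ 0) (h1 : y ≠ 1)
    (hpos : ∀ φ : K →+* ℂ, ∃ t : ℝ, 0 < t ∧ φ y = t) :
    finrank ℚ K * Real.log (27 / 4) ≤ 4 * logHeight₁ y := by
  obtain ⟨a, b, hb, rfl⟩ := IsFractionRing.div_surjective (A := 𝓞 K) y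
  have hb0 : b ≠ 0 := nonZeroDivisors.ne_zero hb
  set I := Ideal.span {a, b} with hI
  have haI : a ∈ I := Ideal.subset_span (by simp)
  have hbI : b ∈ I := Ideal.subset_span (by simp)
  set U := a * (a - b) ^ 2 * b with hU
  have hbL : (b : K) ≠ 0 := by
    intro h
    exact hb0 (RingOfIntegers.ext (by simpa using h))
  have ha0 : a ≠ 0 := by
    intro h
    apply h0
    rw [h]
    simp
  have hab : a - b ≠ 0 := by
    intro h
    apply h1
    rw [sub_eq_zero.mp h]
    exact div_self hbL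
  have hU0 : U ≠ 0 := mul_ne_zero (mul_ne_zero ha0 (pow_ne_zero _ hab)) hb0
  have hmem : U ∈ I ^ 4 := by
    have e1 : I ^ 4 = I * I ^ 2 * I := by ring
    rw [e1]
    exact Ideal.mul_mem_mul (Ideal.mul_mem_mul haI (Ideal.pow_mem_pow (I.sub_mem haI hbI) 2)) hbI
  have hI0 : Ideal.absNorm I ≠ 0 := by
    rw [Ne, Ideal.absNorm_eq_zero_iff]
    intro h
    apply hb0
    rw [h] at hbI
    simpa using hbI
  have hdvd : Ideal.absNorm (I ^ 4) ∣ Ideal.absNorm (Ideal.span {U}) :=
    Ideal.absNorm_dvd_absNorm_of_le ((Ideal.span_singleton_le_iff_mem _).2 hmem)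
  rw [map_pow] at hdvd
  have hUn : Ideal.absNorm (Ideal.span {U}) ≠ 0 := by
    rw [Ne, Ideal.absNorm_eq_zero_iff, Ideal.span_singleton_eq_bot]
    exact hU0
  have hle := Nat.le_of_dvd (Nat.pos_of_ne_zero hUn) hdvd
  set M : ℝ := ∏ φ : K →+* ℂ, max ‖φ a‖ ‖φ b‖ with hM
  have hub : (27 / 4 : ℝ) ^ finrank ℚ K * (Ideal.absNorm (Ideal.span {U}) : ℝ) ≤ M ^ 4 := by
    rw [abs_norm_eq, ← Embeddings.card K ℂ, ← Finset.card_univ, ← Finset.prod_const,
      ← Finset.prod_mul_distrib, hM, ← Finset.prod_pow]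
    apply Finset.prod_le_prod
    · intro φ _
      positivity
    · intro φ _
      obtain ⟨t, ht, hφ⟩ := hpos φ
      have hφb : φ (b : K) ≠ 0 := (map_ne_zero φ).2 hbL
      have hφa : φ (a : K) = t * φ (b : K) := by
        have : φ ((a : K) / b) = t := hφ
        rw [map_div₀, div_eq_iff hφb] at this
        exact this
      have e1 : φ ((U : 𝓞 K) : K) = φ (a : K) * (φ (a : K) - φ (b : K)) ^ 2 * φ (b : K) := by
        rw [hU]
        simp
      have e2 : φ (a : K) - φ (b : K) = ((t - 1 : ℝ) : ℂ) * φ (b : K) := by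
        rw [hφa]; push_cast; ring
      rw [e1, norm_mul, norm_mul, norm_pow, e2, norm_mul, hφa, norm_mul, Complex.norm_real,
        Complex.norm_real, Real.norm_of_nonneg ht.le]
      have hβ : 0 < ‖φ (b : K)‖ := norm_pos_iff.mpr hφb
      set β := ‖φ (b : K)‖ with hβdef
      have e3 : max (t * β) β = max t 1 * β := by
        rw [max_mul_of_nonneg _ _ hβ.le, one_mul]
      rw [e3]
      have e4 : 27 / 4 * (t * β * (‖t - 1‖ * β) ^ 2 * β) = 27 / 4 * (t * (t - 1) ^ 2) * β ^ 4 := by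
        rw [mul_pow, Real.norm_eq_abs, sq_abs]
        ring
      rw [e4, mul_pow]
      exact mul_le_mul_of_nonneg_right (real_ineq ht) (by positivity)
  have hMh : M = mulHeight₁ ((a : K) / b) * Ideal.absNorm I := (mulHeight₁_frac a b hb0).symm
  have hmain : (27 / 4 : ℝ) ^ finrank ℚ K ≤ mulHeight₁ ((a : K) / b) ^ 4 := by
    have h2 : (27 / 4 : ℝ) ^ finrank ℚ K * (Ideal.absNorm I : ℝ) ^ 4 ≤
        mulHeight₁ ((a : K) / b) ^ 4 * (Ideal.absNorm I : ℝ) ^ 4 := by
      calc _ ≤ (27 / 4 : ℝ) ^ finrank ℚ K * (Ideal.absNorm (Ideal.span {U}) : ℝ) := by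
            apply mul_le_mul_of_nonneg_left _ (by positivity)
            exact_mod_cast hle
        _ ≤ M ^ 4 := hub
        _ = _ := by rw [hMh, mul_pow]
    exact le_of_mul_le_mul_right h2 (by positivity)
  have h3 := Real.log_le_log (by positivity) hmain
  rw [Real.log_pow, Real.log_pow, ← logHeight₁_eq_log_mulHeight₁] at h3
  push_cast at h3
  exact h3

/-- numbers on the unit circle which are not roots of unity -/
theorem uni_bound (x : K) (huni : ∀ φ : K →+* ℂ, ‖φ x‖ = 1)
    (hroot : ∀ k : ℕ, 0 < k → x ^ k ≠ 1) : Real.log 2 ≤ logHeight₁ x := by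
  obtain ⟨a, b, hb, rfl⟩ := IsFractionRing.div_surjective (A := 𝓞 K) x
  have hb0 : b ≠ 0 := nonZeroDivisors.ne_zero hb
  set I := Ideal.span {a, b} with hI
  have haI : a ∈ I := Ideal.subset_span (by simp)
  have hbI : b ∈ I := Ideal.subset_span (by simp)
  have hbL : (b : K) ≠ 0 := by
    intro h
    exact hb0 (RingOfIntegers.ext (by simpa using h))
  have hI0 : Ideal.absNorm I ≠ 0 := by
    rw [Ne, Ideal.absNorm_eq_zero_iff]
    intro h
    apply hb0
    rw [h] at hbI
    simpa using hbI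
  have hM : mulHeight₁ ((a : K) / b) * Ideal.absNorm I = Ideal.absNorm (Ideal.span {b}) := by
    rw [mulHeight₁_frac a b hb0, abs_norm_eq]
    apply Finset.prod_congr rfl
    intro φ _
    have hφb : φ (b : K) ≠ 0 := (map_ne_zero φ).2 hbL
    have h1 : ‖φ ((a : K) / b)‖ = 1 := huni φ
    rw [map_div₀, norm_div, div_eq_one_iff_eq (norm_ne_zero_iff.mpr hφb)] at h1
    rw [h1, max_self]
  have hle : Ideal.span {b} ≤ I := (Ideal.span_singleton_le_iff_mem _).2 hbI
  obtain ⟨J, hJ⟩ := Ideal.dvd_iff_le.mpr hle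
  have hN : Ideal.absNorm (Ideal.span {b}) = Ideal.absNorm I * Ideal.absNorm J := by
    rw [hJ, map_mul]
  have hH : mulHeight₁ ((a : K) / b) = Ideal.absNorm J := by
    rw [hN] at hM
    push_cast at hM
    have : ((Ideal.absNorm I : ℕ) : ℝ) ≠ 0 := by exact_mod_cast hI0
    apply mul_right_cancel₀ this
    rw [hM, mul_comm]
  have hJ0 : Ideal.absNorm J ≠ 0 := by
    intro h
    rw [h] at hH
    have := mulHeight₁_pos ((a : K) / b)
    rw [hH] at this
    simp at this
  have hJ1 : Ideal.absNorm J ≠ 1 := by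
    intro h
    rw [Ideal.absNorm_eq_one_iff] at h
    rw [h, Ideal.mul_top] at hJ
    rw [← hJ, Ideal.mem_span_singleton] at haI
    obtain ⟨c, hc⟩ := haI
    have hx : (a : K) / b = (c : K) := by
      rw [div_eq_iff hbL, hc]
      push_cast
      ring
    obtain ⟨k, hk, hk1⟩ := Embeddings.pow_eq_one_of_norm_eq_one K ℂ
      (x := (c : K)) (RingOfIntegers.isIntegral_coe c) (fun φ => by
        have h2 : ‖φ ((a : K) / b)‖ = 1 := huni φ
        rw [hx] at h2
        exact h2)
    apply hroot k hk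
    have h2 : (algebraMap (𝓞 K) K) a / (algebraMap (𝓞 K) K) b = (c : K) := hx
    rw [h2]
    exact hk1
  have h2 : (2 : ℝ) ≤ mulHeight₁ ((a : K) / b) := by
    rw [hH]
    have : 2 ≤ Ideal.absNorm J := by omega
    exact_mod_cast this
  rw [logHeight₁_eq_log_mulHeight₁]
  exact Real.log_le_log (by norm_num) h2

end Pool.Agent.helper69.CM
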