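import Pool.Agent.helper69.CM.Comp

set_option autoImplicit false

/-!
# The simultaneous Lehmer problem for radicals over the compositum of a number field and the
maximal CM field
-/

namespace Pool.Agent.helper69.CM

open NumberField Height Finset Module IntermediateField
open Pool.Agent.helper79.SL Pool.Agent.helper69.SLH

/-- all conjugates over `ℚ` are on the unit circle -/
def Unimod (x : ℂ) : Prop :=
  ∀ z : ℂ, Polynomial.aeval z (minpoly ℚ x) = 0 → ‖z‖ = 1

theorem comp_le_Om (k : IntermediateField ℚ ℂ) [FiniteDimensional ℚ k] : k ⊔ Lcm ≤ Om :=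
  sup_le (le_Om k) Lcm_le_Om

theorem tower_le {F : IntermediateField ℚ ℂ} {n : ℕ} (α : Fin n → ℂ)
    (halg : ∀ i, IsAlgebraic ℚ (α i)) :
    finrank F (adjoin F (Set.range α)) *
      finrank ℚ ((F ⊓ adjoin ℚ (Set.range α) : IntermediateField ℚ ℂ)) ≤ degQ α := by
  set K0 : IntermediateField ℚ ℂ := F ⊓ adjoin ℚ (Set.range α) with hK0
  have h1 : finrank F (adjoin F (Set.range α)) ≤ finrank K0 (adjoin K0 (Set.range α)) :=
    finrank_adjoin_mono (F := K0) (F' := F) inf_le_left (Set.finite_range α) (by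
      rintro _ ⟨i, rfl⟩
      exact halg i)
  have h2 : (adjoin K0 (Set.range α)).restrictScalars ℚ = adjoin ℚ (Set.range α) := by
    apply le_antisymm
    · have h5 : adjoin K0 (Set.range α) ≤
          extendScalars (inf_le_right : K0 ≤ adjoin ℚ (Set.range α)) := by
        rw [adjoin_le_iff]
        exact subset_adjoin ℚ _
      exact fun x hx => h5 hx
    · rw [adjoin_le_iff]
      exact subset_adjoin K0 _
  have h3 : finrank ℚ K0 * finrank K0 (adjoin K0 (Set.range α)) =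
      finrank ℚ (adjoin K0 (Set.range α)) := finrank_mul_finrank ℚ K0 _
  have h4 : finrank ℚ (adjoin K0 (Set.range α)) = degQ α := by
    have h5 : finrank ℚ ((adjoin K0 (Set.range α)).restrictScalars ℚ) = degQ α := by
      rw [h2]
      rfl
    exact h5
  rw [← h4, ← h3, mul_comm]
  exact Nat.mul_le_mul_left _ h1

theorem alg_of_rad (k : IntermediateField ℚ ℂ) [FiniteDimensional ℚ k] {x : ℂ}
    (h : ∃ m : ℕ, 0 < m ∧ x ^ m ∈ k ⊔ Lcm) : IsAlgebraic ℚ x := by
  obtain ⟨m, hm, hx⟩ := h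
  have h1 := mem_Om.mp (comp_le_Om k hx)
  exact h1.of_pow hm

/-- the relative bound -/
theorem relative (k : IntermediateField ℚ ℂ) [FiniteDimensional ℚ k] [Normal ℚ k] {d : ℕ}
    (hd : finrank ℚ k ≤ d) {n : ℕ} (hn : 0 < n) (α : Fin n → ℂ) (h0 : ∀ i, α i ≠ 0)
    (hrad : ∀ i, ∃ m : ℕ, 0 < m ∧ α i ^ m ∈ k ⊔ Lcm)
    (huni : ∀ w : Fin n → ℤ, Unimod (∏ i, α i ^ w i) → w = 0) :
    (Real.log 2 / (2 * d * (2 ^ (d + 1) - 1)) / n) ^ n / degOver (k ⊔ Lcm) α ≤
      ∏ i, ht (α i) := by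
  have halg : ∀ i, IsAlgebraic ℚ (α i) := fun i => alg_of_rad k (hrad i)
  have hd1 : 1 ≤ d := le_trans (finrank_pos : 0 < finrank ℚ k) hd
  have hd' : (0 : ℝ) < d := by exact_mod_cast hd1
  have h2d : (1 : ℝ) ≤ 2 ^ d := one_le_pow₀ (by norm_num)
  have hq : (0 : ℝ) < 2 ^ (d + 1) - 1 := by
    rw [pow_succ]
    linarith
  have hlog : 0 < Real.log 2 := Real.log_pos (by norm_num)
  apply prod_ht_ge (F := k ⊔ Lcm)
    (fun m ζ hm hζ => (le_sup_right : Lcm ≤ k ⊔ Lcm) (root_mem_Lcm m ζ hm hζ)) hn α h0 halg hrad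
    (by positivity)
  intro m hm hmF
  apply low k hd hmF
  · exact Finset.prod_ne_zero_iff.2 fun i _ => zpow_ne_zero _ (h0 i)
  · by_contra hcon
    push Not at hcon
    exact hm (huni m hcon)

/-- the absolute bound -/
theorem absolute (k : IntermediateField ℚ ℂ) [FiniteDimensional ℚ k] [Normal ℚ k] {d : ℕ}
    (hd : finrank ℚ k ≤ d) {n : ℕ} (hn : 0 < n) (α : Fin n → ℂ) (h0 : ∀ i, α i ≠ 0)
    (hind : MulIndep α) (hrad : ∀ i, ∃ m : ℕ, 0 < m ∧ α i ^ m ∈ k ⊔ Lcm)
    (huni : ∀ w w' : Fin n → ℤ, Unimod (∏ i, α i ^ w i) → Unimod (∏ i, α i ^ w' i) →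
      ∃ p q : ℤ, (p ≠ 0 ∨ q ≠ 0) ∧ p • w = q • w') :
    (Real.log 2 / (2 * d * (2 ^ (d + 1) - 1)) / n) ^ n /
      ((finrank (k ⊔ Lcm : IntermediateField ℚ ℂ) (adjoin (k ⊔ Lcm : IntermediateField ℚ ℂ)
          (Set.range α)) *
        finrank ℚ (((k ⊔ Lcm) ⊓ adjoin ℚ (Set.range α) : IntermediateField ℚ ℂ)) : ℕ) : ℝ) ≤
      ∏ i, ht (α i) := by
  have halg : ∀ i, IsAlgebraic ℚ (α i) := fun i => alg_of_rad k (hrad i)
  have hd1 : 1 ≤ d := le_trans (finrank_pos : 0 < finrank ℚ k) hd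
  have hd' : (1 : ℝ) ≤ d := by exact_mod_cast hd1
  have h2d : (1 : ℝ) ≤ 2 ^ d := one_le_pow₀ (by norm_num)
  have hq : (1 : ℝ) ≤ 2 ^ (d + 1) - 1 := by
    rw [pow_succ]
    linarith
  have hlog : 0 < Real.log 2 := Real.log_pos (by norm_num)
  haveI hfd : FiniteDimensional ℚ (adjoin ℚ (Set.range α)) := by
    apply finiteDimensional_adjoin
    rintro _ ⟨i, rfl⟩
    exact (halg i).isIntegral
  set K0 : IntermediateField ℚ ℂ := (k ⊔ Lcm) ⊓ adjoin ℚ (Set.range α) with hK0
  haveI : FiniteDimensional ℚ K0 :=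
    Module.Finite.of_injective (IntermediateField.inclusion (inf_le_right : K0 ≤ _)).toLinearMap
      (IntermediateField.inclusion (inf_le_right : K0 ≤ _)).injective
  have hd₀ : 0 < finrank ℚ K0 := finrank_pos
  have hd₀' : (0 : ℝ) < finrank ℚ K0 := by exact_mod_cast hd₀
  apply prod_ht_ge2 (F := k ⊔ Lcm)
    (fun m ζ hm hζ => (le_sup_right : Lcm ≤ k ⊔ Lcm) (root_mem_Lcm m ζ hm hζ)) hn α h0 halg hrad
    (δ := Real.log 2 / finrank ℚ K0) (by positivity) hd₀ ?_ le_rfl
    (fun w => Unimod (∏ i, α i ^ w i)) huni ?_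
  · rw [mul_div_cancel₀ _ hd₀'.ne']
    have : 1 ≤ 2 * (d : ℝ) * (2 ^ (d + 1) - 1) := by nlinarith
    exact div_le_self hlog.le this
  · intro m hm hmF
    by_cases hcase : Unimod (∏ i, α i ^ m i)
    · right
      refine ⟨hcase, ?_⟩
      apply uni_low2 hcase
      · intro j hj h1
        have h2 : ∏ i, α i ^ ((j : ℤ) * m i) = 1 := by
          rw [← h1, ← Finset.prod_pow]
          refine Finset.prod_congr rfl fun i _ => ?_
          rw [mul_comm, zpow_mul, zpow_natCast]
        have h3 := hind (fun i => (j : ℤ) * m i) h2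
        apply hm
        funext i
        have h4 := congrFun h3 i
        simp only [Pi.zero_apply, mul_eq_zero] at h4
        rcases h4 with h4 | h4
        · omega
        · exact h4
      · refine ⟨hmF, ?_⟩
        exact prod_mem fun i _ => zpow_mem (subset_adjoin ℚ _ (Set.mem_range_self i)) _
    · left
      apply low k hd hmF
      · exact Finset.prod_ne_zero_iff.2 fun i _ => zpow_ne_zero _ (h0 i)
      · unfold Unimod at hcase
        push Not at hcase
        exact hcase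

/-- the degree over `ℚ` of the intersection of `k Lcm` and `ℚ (α 1, …, α n)` -/
noncomputable def degMeet (k : IntermediateField ℚ ℂ) {n : ℕ} (α : Fin n → ℂ) : ℕ :=
  finrank ℚ (((k ⊔ Lcm) ⊓ adjoin ℚ (Set.range α) : IntermediateField ℚ ℂ))

/-- any `r + 1` exponents whose monomials have all conjugates on the unit circle are linearly
dependent -/
def UniRankLE (r : ℕ) {n : ℕ} (α : Fin n → ℂ) : Prop :=
  ∀ w : Fin (r + 1) → Fin n → ℤ, (∀ j, Unimod (∏ i, α i ^ w j i)) → ¬ LinearIndependent ℤ w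

theorem final (k : IntermediateField ℚ ℂ) [FiniteDimensional ℚ k] [Normal ℚ k] {d : ℕ}
    (hd : finrank ℚ k ≤ d) {n : ℕ} (hn : 1 ≤ n) {r : ℕ} (hr : r ≤ 1) (α : Fin n → ℂ)
    (h0 : ∀ i, α i ≠ 0) (hind : MulIndep α) (hrad : ∀ i, ∃ m : ℕ, 0 < m ∧ α i ^ m ∈ k ⊔ Lcm)
    (huni : UniRankLE r α) :
    degOver (k ⊔ Lcm) α * degMeet k α ≤ degQ α ∧
    (Real.log 2 / (2 * d * (2 ^ (d + 1) - 1) * n)) ^ n /
      (degOver (k ⊔ Lcm) α * (degMeet k α : ℝ) ^ r) ≤ ∏ i, ht (α i) := by
  have halg : ∀ i, IsAlgebraic ℚ (α i) := fun i => alg_of_rad k (hrad i)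
  refine ⟨tower_le α halg, ?_⟩
  rw [← div_div (Real.log 2)]
  interval_cases r
  · rw [pow_zero, mul_one]
    apply relative k hd hn α h0 hrad
    intro w hw
    by_contra hne
    apply huni (fun _ => w) (fun _ => hw)
    rw [Fintype.linearIndependent_iff]
    intro g hg j
    have h1 : g 0 • w = 0 := by simpa using hg
    have h2 : g 0 = 0 := by
      rcases smul_eq_zero.mp h1 with h | h
      · exact h
      · exact absurd h hne
    have h3 : j = 0 := Fin.fin_one_eq_zero j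
    rw [h3, h2]
  · rw [pow_one]
    have h := absolute k hd hn α h0 hind hrad (by
      intro w w' hw hw'
      have h1 := huni ![w, w'] (by
        intro j
        fin_cases j
        · exact hw
        · exact hw')
      rw [LinearIndependent.pair_iff] at h1
      push Not at h1
      obtain ⟨p, q, h2, h3⟩ := h1
      refine ⟨p, -q, ?_, ?_⟩
      · by_cases hp : p = 0
        · right
          exact neg_ne_zero.mpr (h3 hp)
        · exact Or.inl hp
      · rw [neg_smul]
        exact eq_neg_of_add_eq_zero_left h2)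
    push_cast at h
    exact h

end Pool.Agent.helper69.CM
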